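import Mathlib

set_option autoImplicit false

namespace Pool.Agent.Results.MP_8481ed_ag.StableSpec

open MvPolynomial

universe u

section defs

variable {k : Type u} [Field k] {ι : Type}

/-- The maximal ideal `(x - p₀, y - p₁)` of the point `p` of the affine plane `𝔸² ⊆ ℙ²`. -/
noncomputable def pointIdeal (p : Fin 2 → k) : Ideal (MvPolynomial (Fin 2) k) :=
  Ideal.span {X 0 - C (p 0), X 1 - C (p 1)}

/-- `H⁰(X, dH - ∑ mᵢEᵢ)`, where `X` is the blow-up of `ℙ²` at the points `pᵢ ∈ 𝔸²`: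
the (dehomogenised) forms of degree `d`, i.e. the polynomials of degree `≤ d`, that vanish to order
at least `mᵢ` at `pᵢ` for every `i`. -/
noncomputable def H0 (p : ι → Fin 2 → k) (d : ℕ) (m : ι → ℕ) :
    Submodule k (MvPolynomial (Fin 2) k) :=
  restrictTotalDegree (Fin 2) k d ⊓ ⨅ i, (pointIdeal (p i) ^ m i).restrictScalars k

/-- The restriction map `H⁰(ℙ², 𝒪(d)) → H⁰(Z, 𝒪_Z) = ∏ᵢ 𝒪/𝔪ᵢ^{mᵢ}` to the scheme `Z = ∑ mᵢpᵢ` of fat points. -/
noncomputable def jets (p : ι → Fin 2 → k) (d : ℕ) (m : ι → ℕ) :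
    restrictTotalDegree (Fin 2) k d →ₗ[k]
      ((i : ι) → MvPolynomial (Fin 2) k ⧸ (pointIdeal (p i) ^ m i)) :=
  (LinearMap.pi (fun i => (Ideal.Quotient.mkₐ k (pointIdeal (p i) ^ m i)).toLinearMap)) ∘ₗ
    (restrictTotalDegree (Fin 2) k d).subtype

/-- `H¹(X, dH - ∑ mᵢEᵢ) = H¹(ℙ², 𝓘_Z(d))`, computed as the cokernel of
`H⁰(ℙ², 𝒪(d)) → H⁰(Z, 𝒪_Z)` (because `H¹(ℙ², 𝒪(d)) = 0`). -/
abbrev H1 (p : ι → Fin 2 → k) (d : ℕ) (m : ι → ℕ) : Type u :=
  ((i : ι) → MvPolynomial (Fin 2) k ⧸ (pointIdeal (p i) ^ m i)) ⧸ LinearMap.range (jets p d m)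

/-- `h⁰(X, dH - ∑ mᵢEᵢ)`. -/
noncomputable def h0 (p : ι → Fin 2 → k) (d : ℕ) (m : ι → ℕ) : Cardinal.{u} :=
  Module.rank k (H0 p d m)

/-- `h¹(X, dH - ∑ mᵢEᵢ)`. -/
noncomputable def h1 (p : ι → Fin 2 → k) (d : ℕ) (m : ι → ℕ) : Cardinal.{u} :=
  Module.rank k (H1 p d m)

/-- The divisor `dH - ∑ mᵢEᵢ` is special: `h⁰ > 0` and `h¹ > 0`. -/
def Special (p : ι → Fin 2 → k) (d : ℕ) (m : ι → ℕ) : Prop :=
  0 < h0 p d m ∧ 0 < h1 p d m

end defs

section lemmas

variable {k : Type u} [Field k]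

lemma sub_eval_mem (p : Fin 2 → k) (g : MvPolynomial (Fin 2) k) :
    g - C (eval p g) ∈ pointIdeal p := by
  induction g using MvPolynomial.induction_on with
  | C a => simp
  | add f g hf hg =>
    have : f + g - C (eval p (f + g)) = (f - C (eval p f)) + (g - C (eval p g)) := by
      simp only [map_add]; ring
    rw [this]
    exact Ideal.add_mem _ hf hg
  | mul_X f n hf =>
    have : f * X n - C (eval p (f * X n)) = X n * (f - C (eval p f)) + C (eval p f) * (X n - C (p n)) := by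
      simp only [map_mul, eval_X]; ring
    rw [this]
    refine Ideal.add_mem _ (Ideal.mul_mem_left _ _ hf) (Ideal.mul_mem_left _ _ ?_)
    refine Ideal.subset_span ?_
    fin_cases n <;> simp

lemma mem_iff (p : Fin 2 → k) (g : MvPolynomial (Fin 2) k) :
    g ∈ pointIdeal p ↔ eval p g = 0 := by
  constructor
  · intro h
    rw [pointIdeal, Ideal.mem_span_pair] at h
    obtain ⟨a, b, rfl⟩ := h
    simp
  · intro h
    have := sub_eval_mem p g
    rw [h, map_zero, sub_zero] at this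
    exact this

/-- Lagrange basis factor without normalisation: `∏_{l ≠ i} (X_n - a_l)`. -/
noncomputable def ff (a : Fin 4 → k) (n : Fin 2) (i : Fin 4) : MvPolynomial (Fin 2) k :=
  ∏ l ∈ Finset.univ.erase i, (X n - C (a l))

noncomputable def f4 (a : Fin 4 → k) (n : Fin 2) : MvPolynomial (Fin 2) k :=
  ∏ l, (X n - C (a l))

def cc (a : Fin 4 → k) (i : Fin 4) : k := ∏ l ∈ Finset.univ.erase i, (a i - a l)

lemma cc_ne (a : Fin 4 → k) (ha : Function.Injective a) (i : Fin 4) : cc a i ≠ 0 := by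
  rw [cc, Finset.prod_ne_zero_iff]
  intro l hl
  rw [Finset.mem_erase] at hl
  exact sub_ne_zero.2 (fun h => hl.1 (ha h).symm)

lemma f4_eq (a : Fin 4 → k) (n : Fin 2) (i : Fin 4) : f4 a n = (X n - C (a i)) * ff a n i := by
  exact (Finset.mul_prod_erase Finset.univ (fun l => (X n - C (a l) : MvPolynomial (Fin 2) k)) (Finset.mem_univ i)).symm

lemma eval_ff (a : Fin 4 → k) (n : Fin 2) (i : Fin 4) (q : Fin 2 → k) :
    eval q (ff a n i) = ∏ l ∈ Finset.univ.erase i, (q n - a l) := by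
  simp [ff, map_prod]

lemma ff_ne (a : Fin 4 → k) (n : Fin 2) (i j : Fin 4) (h : j ≠ i) (q : Fin 2 → k) (hq : q n = a j) :
    eval q (ff a n i) = 0 := by
  rw [eval_ff, Finset.prod_eq_zero (i := j)]
  · simp [h]
  · rw [hq, sub_self]

lemma ff_self (a : Fin 4 → k) (n : Fin 2) (i : Fin 4) (q : Fin 2 → k) (hq : q n = a i) :
    eval q (ff a n i) = cc a i := by
  rw [eval_ff, hq, cc]

lemma deg_lin (n : Fin 2) (c : k) : (X n - C c : MvPolynomial (Fin 2) k).totalDegree ≤ 1 := by
  refine (totalDegree_sub _ _).trans ?_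
  simp

lemma deg_ff (a : Fin 4 → k) (n : Fin 2) (i : Fin 4) : (ff a n i).totalDegree ≤ 3 := by
  refine (totalDegree_finsetProd _ _).trans ?_
  refine (Finset.sum_le_sum (fun l _ => deg_lin n (a l))).trans ?_
  simp

lemma deg_f4 (a : Fin 4 → k) (n : Fin 2) : (f4 a n).totalDegree ≤ 4 := by
  refine (totalDegree_finsetProd _ _).trans ?_
  refine (Finset.sum_le_sum (fun l _ => deg_lin n (a l))).trans ?_
  simp

/-- The grid point `(a i, a j)`. -/
def pt (a : Fin 4 → k) (ij : Fin 4 × Fin 4) : Fin 2 → k := ![a ij.1, a ij.2]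

lemma pt_inj (a : Fin 4 → k) (ha : Function.Injective a) : Function.Injective (pt a) := by
  rintro ⟨i, j⟩ ⟨i', j'⟩ h
  have h0 := congrFun h 0
  have h1 := congrFun h 1
  simp only [pt, Matrix.cons_val_zero, Matrix.cons_val_one] at h0 h1
  rw [ha h0, ha h1]

/-- Interpolation of values at the 16 grid points by polynomials of degree `≤ 6`. -/
lemma interp (a : Fin 4 → k) (ha : Function.Injective a) (v : Fin 4 × Fin 4 → k) :
    ∃ A : MvPolynomial (Fin 2) k, A.totalDegree ≤ 6 ∧ ∀ ij, eval (pt a ij) A = v ij := by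
  refine ⟨∑ kl : Fin 4 × Fin 4, C (v kl / (cc a kl.1 * cc a kl.2)) * (ff a 0 kl.1 * ff a 1 kl.2), ?_, ?_⟩
  · refine totalDegree_finsetSum_le (fun kl _ => ?_)
    refine (totalDegree_mul _ _).trans ?_
    rw [totalDegree_C, zero_add]
    refine (totalDegree_mul _ _).trans ?_
    have h1 := deg_ff a 0 kl.1
    have h2 := deg_ff a 1 kl.2
    omega
  · rintro ⟨i, j⟩
    rw [map_sum, Finset.sum_eq_single (i, j)]
    · rw [map_mul, map_mul, eval_C, ff_self a 0 i _ rfl, ff_self a 1 j _ rfl]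
      have h1 := cc_ne a ha i
      have h2 := cc_ne a ha j
      field_simp
    · rintro ⟨i', j'⟩ _ hne
      rw [map_mul, map_mul]
      by_cases hi : i = i'
      · have hj : j ≠ j' := by
          rintro rfl
          exact hne (by rw [hi])
        rw [ff_ne a 1 j' j hj _ rfl]; ring
      · rw [ff_ne a 0 i' i hi _ rfl]; ring
    · intro h; exact absurd (Finset.mem_univ _) h

lemma surj (a : Fin 4 → k) (ha : Function.Injective a)
    (t : Fin 4 × Fin 4 → MvPolynomial (Fin 2) k) :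
    ∃ F : MvPolynomial (Fin 2) k, F.totalDegree ≤ 10 ∧
      ∀ ij, F - t ij ∈ pointIdeal (pt a ij) ^ 2 := by
  obtain ⟨A, hA, hAe⟩ := interp a ha (fun ij => eval (pt a ij) (t ij))
  have h1 : ∀ ij : Fin 4 × Fin 4, ∃ u w : MvPolynomial (Fin 2) k,
      u * (X 0 - C (a ij.1)) + w * (X 1 - C (a ij.2)) = t ij - A := by
    intro ij
    have : t ij - A ∈ pointIdeal (pt a ij) := by
      rw [mem_iff, map_sub, hAe, sub_self]
    rw [pointIdeal, Ideal.mem_span_pair] at this
    exact this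
  choose u w huw using h1
  obtain ⟨B, hB, hBe⟩ := interp a ha (fun ij => eval (pt a ij) (u ij) / cc a ij.1)
  obtain ⟨D, hD, hDe⟩ := interp a ha (fun ij => eval (pt a ij) (w ij) / cc a ij.2)
  refine ⟨A + (f4 a 0 * B + f4 a 1 * D), ?_, ?_⟩
  · have d0 := deg_f4 a 0
    have d1 := deg_f4 a 1
    have m0 := totalDegree_mul (f4 a 0) B
    have m1 := totalDegree_mul (f4 a 1) D
    refine (totalDegree_add _ _).trans (max_le (by omega) ?_)
    exact (totalDegree_add _ _).trans (max_le (by omega) (by omega))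
  · rintro ⟨i, j⟩
    have hk := huw (i, j)
    have e : A + (f4 a 0 * B + f4 a 1 * D) - t (i, j) =
        (X 0 - C (a i)) * (ff a 0 i * B - u (i, j)) + (X 1 - C (a j)) * (ff a 1 j * D - w (i, j)) := by
      rw [f4_eq a 0 i, f4_eq a 1 j]
      linear_combination hk
    rw [e, pow_two]
    have g0 : (X 0 - C (a i) : MvPolynomial (Fin 2) k) ∈ pointIdeal (pt a (i, j)) := by
      rw [mem_iff]; simp [pt]
    have g1 : (X 1 - C (a j) : MvPolynomial (Fin 2) k) ∈ pointIdeal (pt a (i, j)) := by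
      rw [mem_iff]; simp [pt]
    refine Ideal.add_mem _ (Ideal.mul_mem_mul g0 ?_) (Ideal.mul_mem_mul g1 ?_)
    · rw [mem_iff, map_sub, map_mul, ff_self a 0 i _ rfl, hBe]
      have := cc_ne a ha i
      field_simp
      ring
    · rw [mem_iff, map_sub, map_mul, ff_self a 1 j _ rfl, hDe]
      have := cc_ne a ha j
      field_simp
      ring

/-- Divided differences of order three kill `x^n`, `n ≤ 2`. -/
lemma dd (a : Fin 4 → k) (ha : Function.Injective a) (n : ℕ) (hn : n ≤ 2) :
    ∑ i, a i ^ n / cc a i = 0 := by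
  have h01 : a 0 - a 1 ≠ 0 := sub_ne_zero.2 (fun h => absurd (ha h) (by decide))
  have h02 : a 0 - a 2 ≠ 0 := sub_ne_zero.2 (fun h => absurd (ha h) (by decide))
  have h03 : a 0 - a 3 ≠ 0 := sub_ne_zero.2 (fun h => absurd (ha h) (by decide))
  have h12 : a 1 - a 2 ≠ 0 := sub_ne_zero.2 (fun h => absurd (ha h) (by decide))
  have h13 : a 1 - a 3 ≠ 0 := sub_ne_zero.2 (fun h => absurd (ha h) (by decide))
  have h23 : a 2 - a 3 ≠ 0 := sub_ne_zero.2 (fun h => absurd (ha h) (by decide))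
  have c0 : cc a 0 = (a 0 - a 1) * (a 0 - a 2) * (a 0 - a 3) := by
    rw [cc, show (Finset.univ.erase (0 : Fin 4)) = {1, 2, 3} by decide]
    rw [Finset.prod_insert (by decide), Finset.prod_insert (by decide), Finset.prod_singleton]; ring
  have c1 : cc a 1 = -(a 0 - a 1) * (a 1 - a 2) * (a 1 - a 3) := by
    rw [cc, show (Finset.univ.erase (1 : Fin 4)) = {0, 2, 3} by decide]
    rw [Finset.prod_insert (by decide), Finset.prod_insert (by decide), Finset.prod_singleton]; ring
  have c2 : cc a 2 = (a 0 - a 2) * (a 1 - a 2) * (a 2 - a 3) := by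
    rw [cc, show (Finset.univ.erase (2 : Fin 4)) = {0, 1, 3} by decide]
    rw [Finset.prod_insert (by decide), Finset.prod_insert (by decide), Finset.prod_singleton]; ring
  have c3 : cc a 3 = -(a 0 - a 3) * (a 1 - a 3) * (a 2 - a 3) := by
    rw [cc, show (Finset.univ.erase (3 : Fin 4)) = {0, 1, 2} by decide]
    rw [Finset.prod_insert (by decide), Finset.prod_insert (by decide), Finset.prod_singleton]; ring
  rw [Fin.sum_univ_four, c0, c1, c2, c3]
  interval_cases n
  · field_simp; ring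
  · field_simp; ring
  · field_simp; ring

/-- The relation between the values of a quintic at the points of the grid. -/
lemma rel (a : Fin 4 → k) (ha : Function.Injective a) (F : MvPolynomial (Fin 2) k)
    (hF : F.totalDegree ≤ 5) :
    ∑ ij : Fin 4 × Fin 4, eval (pt a ij) F / (cc a ij.1 * cc a ij.2) = 0 := by
  have hmon : ∀ s ∈ F.support, ∑ ij : Fin 4 × Fin 4,
      (coeff s F * (a ij.1 ^ s 0 * a ij.2 ^ s 1)) / (cc a ij.1 * cc a ij.2) = 0 := by
    intro s hs
    have hdeg : s 0 + s 1 ≤ 5 := by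
      have := le_totalDegree hs
      rw [Finsupp.sum_fintype _ _ (by simp)] at this
      simp only [Fin.sum_univ_two] at this
      omega
    have e : ∑ ij : Fin 4 × Fin 4, (coeff s F * (a ij.1 ^ s 0 * a ij.2 ^ s 1)) / (cc a ij.1 * cc a ij.2) =
        coeff s F * ((∑ i, a i ^ s 0 / cc a i) * (∑ j, a j ^ s 1 / cc a j)) := by
      rw [Finset.sum_mul_sum, ← Finset.sum_product', Finset.univ_product_univ, Finset.mul_sum]
      refine Finset.sum_congr rfl (fun ij _ => ?_)
      rw [div_mul_div_comm, mul_div_assoc]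
    rw [e]
    rcases Nat.lt_or_ge 2 (s 0) with h | h
    · rw [dd a ha (s 1) (by omega)]; ring
    · rw [dd a ha (s 0) h]; ring
  have e : ∀ ij : Fin 4 × Fin 4, eval (pt a ij) F / (cc a ij.1 * cc a ij.2) =
      ∑ s ∈ F.support, (coeff s F * (a ij.1 ^ s 0 * a ij.2 ^ s 1)) / (cc a ij.1 * cc a ij.2) := by
    intro ij
    rw [eval_eq', Finset.sum_div]
    refine Finset.sum_congr rfl (fun s _ => ?_)
    simp [pt, Fin.prod_univ_two]
  rw [Finset.sum_congr rfl (fun ij _ => e ij), Finset.sum_comm]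
  exact Finset.sum_eq_zero hmon

end lemmas

/-- **Disproof of the stability of speciality.**  Over every algebraically closed field `k` there are
16 distinct points of `𝔸² ⊆ ℙ²` such that `D = 5H - E₁ - ⋯ - E₁₆` is special, while `2D` has
`h¹(2D) = 0` and so is not special. -/
theorem result (k : Type u) [Field k] [IsAlgClosed k] :
    ∃ p : Fin 4 × Fin 4 → Fin 2 → k, Function.Injective p ∧
      Special p 5 (fun _ => 1) ∧
      h1 p (2 * 5) (fun _ => 2 * 1) = 0 ∧ ¬ Special p (2 * 5) (fun _ => 2 * 1) := by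
  have : Infinite k := IsAlgClosed.instInfinite
  let a : Fin 4 → k := fun i => Infinite.natEmbedding k i.val
  have ha : Function.Injective a := fun i j h => Fin.ext ((Infinite.natEmbedding k).injective h)
  have hzero : h1 (pt a) (2 * 5) (fun _ => 2 * 1) = 0 := by
    rw [h1, rank_zero_iff]
    rw [Submodule.Quotient.subsingleton_iff, LinearMap.range_eq_top]
    intro T
    have hrep : ∀ ij, ∃ t : MvPolynomial (Fin 2) k, Ideal.Quotient.mk (pointIdeal (pt a ij) ^ (2 * 1)) t = T ij :=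
      fun ij => Ideal.Quotient.mk_surjective (T ij)
    choose t ht using hrep
    obtain ⟨F, hF, hFt⟩ := surj a ha t
    refine ⟨⟨F, (mem_restrictTotalDegree _ _ _).2 hF⟩, ?_⟩
    funext ij
    rw [← ht ij]
    change Ideal.Quotient.mk (pointIdeal (pt a ij) ^ (2 * 1)) F = _
    rw [Ideal.Quotient.eq]
    exact hFt ij
  refine ⟨pt a, pt_inj a ha, ⟨?_, ?_⟩, hzero, ?_⟩
  · rw [h0, rank_pos_iff_nontrivial, Submodule.nontrivial_iff_ne_bot, Submodule.ne_bot_iff]
    refine ⟨f4 a 0, ?_, ?_⟩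
    · refine Submodule.mem_inf.2 ⟨(mem_restrictTotalDegree _ _ _).2 ((deg_f4 a 0).trans (by norm_num)), ?_⟩
      rw [Submodule.mem_iInf]
      rintro ⟨i, j⟩
      rw [Submodule.restrictScalars_mem, pow_one, mem_iff, f4_eq a 0 i]
      simp [pt]
    · rw [f4, Finset.prod_ne_zero_iff]
      intro l _ h0
      have := congrArg (eval (fun _ => a l + 1)) h0
      simp at this
  · rw [h1, rank_pos_iff_nontrivial, Submodule.Quotient.nontrivial_iff]
    intro htop
    rw [LinearMap.range_eq_top] at htop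
    obtain ⟨F, hF⟩ := htop (fun ij => if ij = (0, 0) then 1 else 0)
    have hdeg : (F : MvPolynomial (Fin 2) k).totalDegree ≤ 5 := (mem_restrictTotalDegree _ _ _).1 F.2
    have hrel := rel a ha F hdeg
    have hval : ∀ ij : Fin 4 × Fin 4, eval (pt a ij) (F : MvPolynomial (Fin 2) k) = if ij = (0, 0) then 1 else 0 := by
      intro ij
      have h := congrFun hF ij
      change Ideal.Quotient.mk (pointIdeal (pt a ij) ^ 1) (F : MvPolynomial (Fin 2) k) = _ at h
      split_ifs at h ⊢ with hc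
      · rw [← map_one (Ideal.Quotient.mk _), Ideal.Quotient.eq, pow_one, mem_iff, map_sub, map_one] at h
        linear_combination h
      · rw [Ideal.Quotient.eq_zero_iff_mem, pow_one, mem_iff] at h
        exact h
    rw [Finset.sum_eq_single ((0, 0) : Fin 4 × Fin 4)] at hrel
    · rw [hval, if_pos rfl, one_div, inv_eq_zero] at hrel
      exact (mul_ne_zero (cc_ne a ha 0) (cc_ne a ha 0)) hrel
    · intro b _ hb
      rw [hval, if_neg hb, zero_div]
    · intro h; exact absurd (Finset.mem_univ _) h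
  · intro hS
    exact absurd hS.2 (by rw [hzero]; exact lt_irrefl _)

end Pool.Agent.Results.MP_8481ed_ag.StableSpec
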